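import Mathlib

/-!
A stationary random graph of polynomial growth on which the harmonic functions of growth
`O (1 + dist) ^ 3` form an infinite dimensional space.

The example is an unweighted graph of degree at most `10`, all of whose balls of radius `n` have at
most `1536 n ^ 4` vertices.  A vertex is a height `x : ℕ` together with a finitely supported
configuration of lamps `w : ℕ → {0, …, 7}`; lamp `j` sits between the heights `2 ^ j - 1` and
`2 ^ j`, and it is required to be in one of the states `0, 1` as soon as `2 ^ j ≤ x`.  Neighbouring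
vertices have heights `x`, `x + 1` and configurations which agree except possibly at the lamp
sitting between `x` and `x + 1`.  (This is the horocyclic product of a binary tree and of an
`8`-ary canopy tree with stretched edges.)  All vertices of the same height are equivalent under
automorphisms, and the height of a stationary root has the law proportional to
`4 ^ (-(number of bits of x)) * degree`.
For every `i` the function which vanishes below lamp `i`, and is `± (T x - T (2 ^ i - 1))` above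
it, the sign being given by the state of lamp `i`, is harmonic for a suitable radial function `T`
of cubic growth.
-/

set_option autoImplicit false
set_option linter.unusedSectionVars false

open MeasureTheory
open scoped ENNReal

namespace Pool.Agent.Results.MP_1af0ac_pr.InfiniteDim

/-! ### Definitions -/

/-- A weighted graph with vertex set `V`: a connected graph with a positive symmetric weight on
each edge (weight `0` on non-edges), the total weight at each vertex being finite. -/
structure WGraph (V : Type) where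
  /-- the underlying graph -/
  graph : SimpleGraph V
  conn : graph.Connected
  /-- the weight `ν(v,w)` -/
  wt : V → V → ℝ
  wt_symm : ∀ v w, wt v w = wt w v
  wt_pos : ∀ v w, graph.Adj v w → 0 < wt v w
  wt_zero : ∀ v w, ¬ graph.Adj v w → wt v w = 0
  wt_summable : ∀ v, Summable (wt v)

namespace WGraph

variable {V : Type}

/-- `ν(v) = ∑_w ν(v,w)`. -/
noncomputable def total (Γ : WGraph V) (v : V) : ℝ := ∑' w, Γ.wt v w

/-- The transition kernel `P(v,w) = ν(v,w) / ν(v)`. -/
noncomputable def P (Γ : WGraph V) (v w : V) : ℝ := Γ.wt v w / Γ.total v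

/-- Root-preserving isomorphism of the rooted Markov chains of `(Γ, x)` and `(Γ', x')`. -/
def RootedIso (Γ : WGraph V) (x : V) (Γ' : WGraph V) (x' : V) : Prop :=
  ∃ φ : V ≃ V, φ x = x' ∧ ∀ v w, Γ'.P (φ v) (φ w) = Γ.P v w

/-- The ball of radius `n` about `x` in the graph distance. -/
def ball (Γ : WGraph V) (x : V) (n : ℕ) : Set V := {y | Γ.graph.dist x y ≤ n}

/-- `ℋ_k`: the vector space of harmonic functions `h` with `|h(x)| ≤ c (1 + d(ρ,x))^k` for some
constant `c`. -/
noncomputable def H (Γ : WGraph V) (ρ : V) (k : ℝ) : Submodule ℝ (V → ℝ) where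
  carrier := {h | (∀ x, HasSum (fun y => Γ.P x y * h y) (h x)) ∧
    ∃ c : ℝ, ∀ x, |h x| ≤ c * (1 + (Γ.graph.dist ρ x : ℝ)) ^ k}
  add_mem' := by
    rintro f g ⟨hf, c, hc⟩ ⟨hg, d, hd⟩
    refine ⟨fun x => ?_, c + d, fun x => ?_⟩
    · have := (hf x).add (hg x)
      simpa [mul_add] using this
    · calc |(f + g) x| ≤ |f x| + |g x| := abs_add_le _ _
        _ ≤ c * (1 + (Γ.graph.dist ρ x : ℝ)) ^ k + d * (1 + (Γ.graph.dist ρ x : ℝ)) ^ k :=
            add_le_add (hc x) (hd x)
        _ = (c + d) * (1 + (Γ.graph.dist ρ x : ℝ)) ^ k := by ring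
  zero_mem' := by
    refine ⟨fun x => ?_, 0, fun x => ?_⟩
    · simp
    · simp
  smul_mem' := by
    rintro a f ⟨hf, c, hc⟩
    refine ⟨fun x => ?_, |a| * c, fun x => ?_⟩
    · have := (hf x).mul_left a
      simpa [mul_left_comm] using this
    · calc |(a • f) x| = |a| * |f x| := by simp [abs_mul]
        _ ≤ |a| * (c * (1 + (Γ.graph.dist ρ x : ℝ)) ^ k) :=
            mul_le_mul_of_nonneg_left (hc x) (abs_nonneg a)
        _ = |a| * c * (1 + (Γ.graph.dist ρ x : ℝ)) ^ k := by ring

end WGraph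

/-- A stationary random graph `(G, ν, ρ)` with vertex set `V`, defined on the probability space
`(Ω, μ)`: the events that depend only on the rooted graph up to root-preserving isomorphism of the
rooted Markov chain have the same probability for `(G, ν, ρ)` and for `(G, ν, X₁)`, where `X₁` is
the first step of the walk started at `ρ`. -/
structure StationaryRandomGraph (Ω V : Type) [MeasurableSpace Ω] where
  /-- the probability measure -/
  μ : Measure Ω
  prob : IsProbabilityMeasure μ
  /-- the random weighted graph -/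
  Γ : Ω → WGraph V
  /-- the random root -/
  ρ : Ω → V
  meas_wt : ∀ v w, Measurable fun ω => (Γ ω).wt v w
  meas_root : ∀ v, MeasurableSet {ω | ρ ω = v}
  stationary : ∀ A : Set (WGraph V × V),
    (∀ Γ₁ x₁ Γ₂ x₂, WGraph.RootedIso Γ₁ x₁ Γ₂ x₂ → ((Γ₁, x₁) ∈ A ↔ (Γ₂, x₂) ∈ A)) →
    (∀ v, MeasurableSet {ω | (Γ ω, v) ∈ A}) →
    μ {ω | (Γ ω, ρ ω) ∈ A} =
      ∫⁻ ω, ∑' v, ENNReal.ofReal ((Γ ω).P (ρ ω) v) * {v | (Γ ω, v) ∈ A}.indicator 1 v ∂μ

/-- Polynomial growth: `𝔼 |B_ρ(n)| ≤ C n^d` for all `n ≥ 1`, for some constants `C, d`. -/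
def StationaryRandomGraph.PolynomialGrowth {Ω V : Type} [MeasurableSpace Ω]
    (S : StationaryRandomGraph Ω V) : Prop :=
  ∃ C d : ℕ, ∀ n : ℕ, 1 ≤ n →
    ∫⁻ ω, (((S.Γ ω).ball (S.ρ ω) n).encard : ℝ≥0∞) ∂S.μ ≤ C * n ^ d

/-! ### The graph -/

/-- vertices: a height and a lamp configuration -/
def Vert : Type := {p : ℕ × (ℕ → ℕ) //
  (∀ j, p.2 j < 8) ∧ (∀ j, 2 ^ j ≤ p.1 → p.2 j < 2) ∧ {j | p.2 j ≠ 0}.Finite}

def ht (v : Vert) : ℕ := v.1.1
def lp (v : Vert) : ℕ → ℕ := v.1.2

lemma lp_lt (v : Vert) (j : ℕ) : lp v j < 8 := v.2.1 j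
lemma lp_lt_two (v : Vert) (j : ℕ) (h : 2 ^ j ≤ ht v) : lp v j < 2 := v.2.2.1 j h
lemma lp_fin (v : Vert) : {j | lp v j ≠ 0}.Finite := v.2.2.2

lemma Vert.ext' {u v : Vert} (h1 : ht u = ht v) (h2 : ∀ j, lp u j = lp v j) : u = v := by
  apply Subtype.ext
  apply Prod.ext h1
  exact funext h2

/-- `u` is one step above `v` -/
def Up (v u : Vert) : Prop := ht u = ht v + 1 ∧ ∀ j, 2 ^ j ≠ ht v + 1 → lp u j = lp v j

def gr : SimpleGraph Vert where
  Adj v u := Up v u ∨ Up u v
  symm := ⟨fun _ _ h => h.symm⟩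
  loopless := ⟨fun v h => by rcases h with h | h <;> (have := h.1; omega)⟩

/-- the base configuration at height `x` -/
def base (x : ℕ) : Vert := ⟨(x, fun _ => 0), by simp, by simp, by simp⟩

@[simp] lemma ht_base (x : ℕ) : ht (base x) = x := rfl
@[simp] lemma lp_base (x j : ℕ) : lp (base x) j = 0 := rfl

/-- step up, putting the crossed lamp (if any) in state `a` -/
def upV (v : Vert) (a : Fin 2) : Vert :=
  ⟨(ht v + 1, fun j => if 2 ^ j = ht v + 1 then a else lp v j), by
    refine ⟨fun j => ?_, fun j hj => ?_, ?_⟩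
    · dsimp only
      split_ifs
      · have := a.2; omega
      · exact lp_lt v j
    · dsimp only at hj ⊢
      split_ifs with h
      · exact a.2
      · exact lp_lt_two v j (by omega)
    · apply ((lp_fin v).union (Set.finite_le_nat (ht v + 1))).subset
      intro j hj
      simp only [Set.mem_ofPred_eq] at hj
      by_cases h : 2 ^ j = ht v + 1
      · right
        have : j < 2 ^ j := Nat.lt_two_pow_self
        simp only [Set.mem_ofPred_eq]; omega
      · left; simpa [h] using hj⟩

@[simp] lemma ht_upV (v : Vert) (a : Fin 2) : ht (upV v a) = ht v + 1 := rfl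
lemma lp_upV (v : Vert) (a : Fin 2) (j : ℕ) :
    lp (upV v a) j = if 2 ^ j = ht v + 1 then (a : ℕ) else lp v j := rfl

/-- step down (from positive height), putting the crossed lamp (if any) in state `a` -/
def downV (v : Vert) (a : Fin 8) : Vert :=
  ⟨(ht v - 1, fun j => if 2 ^ j = ht v then a else lp v j), by
    refine ⟨fun j => ?_, fun j hj => ?_, ?_⟩
    · dsimp only
      split_ifs
      · exact a.2
      · exact lp_lt v j
    · dsimp only at hj ⊢
      have h2 : 0 < 2 ^ j := by positivity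
      rw [if_neg (by omega)]
      exact lp_lt_two v j (by omega)
    · apply ((lp_fin v).union (Set.finite_le_nat (ht v))).subset
      intro j hj
      simp only [Set.mem_ofPred_eq] at hj
      by_cases h : 2 ^ j = ht v
      · right
        have : j < 2 ^ j := Nat.lt_two_pow_self
        simp only [Set.mem_ofPred_eq]; omega
      · left; simpa [h] using hj⟩

@[simp] lemma ht_downV (v : Vert) (a : Fin 8) : ht (downV v a) = ht v - 1 := rfl
lemma lp_downV (v : Vert) (a : Fin 8) (j : ℕ) :
    lp (downV v a) j = if 2 ^ j = ht v then (a : ℕ) else lp v j := rfl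

/-- `p` is a power of two -/
def IsPow (p : ℕ) : Prop := ∃ j, 2 ^ j = p

noncomputable instance (p : ℕ) : Decidable (IsPow p) := Classical.dec _

lemma not_isPow_zero : ¬ IsPow 0 := by
  rintro ⟨j, hj⟩
  have : 0 < 2 ^ j := by positivity
  omega

open Classical in
/-- the up neighbours -/
noncomputable def upN (v : Vert) : Finset Vert := Finset.univ.image (upV v)

open Classical in
/-- the down neighbours -/
noncomputable def downN (v : Vert) : Finset Vert :=
  if ht v = 0 then ∅ else Finset.univ.image (downV v)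

lemma mem_upN (v u : Vert) : u ∈ upN v ↔ Up v u := by
  classical
  unfold upN
  rw [Finset.mem_image]
  constructor
  · rintro ⟨a, _, rfl⟩
    refine ⟨rfl, fun j hj => ?_⟩
    rw [lp_upV, if_neg hj]
  · rintro ⟨h1, h2⟩
    by_cases hp : IsPow (ht v + 1)
    · obtain ⟨i, hi⟩ := hp
      refine ⟨⟨lp u i, lp_lt_two u i (by omega)⟩, Finset.mem_univ _, ?_⟩
      apply Vert.ext'
      · rw [ht_upV, h1]
      · intro j
        rw [lp_upV]
        split_ifs with hj
        · have : j = i := Nat.pow_right_injective le_rfl (hj.trans hi.symm)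
          rw [this]
        · exact (h2 j hj).symm
    · refine ⟨0, Finset.mem_univ _, ?_⟩
      apply Vert.ext'
      · rw [ht_upV, h1]
      · intro j
        have hj : 2 ^ j ≠ ht v + 1 := fun h => hp ⟨j, h⟩
        rw [lp_upV, if_neg hj, h2 j hj]

lemma mem_downN (v u : Vert) : u ∈ downN v ↔ Up u v := by
  classical
  unfold downN
  by_cases h0 : ht v = 0
  · rw [if_pos h0]
    constructor
    · intro h; exact absurd h (Finset.notMem_empty _)
    · intro h; have := h.1; omega
  rw [if_neg h0, Finset.mem_image]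
  constructor
  · rintro ⟨a, _, rfl⟩
    refine ⟨by rw [ht_downV]; omega, fun j hj => ?_⟩
    rw [ht_downV] at hj
    rw [lp_downV, if_neg (by omega)]
  · rintro ⟨h1, h2⟩
    by_cases hp : IsPow (ht v)
    · obtain ⟨i, hi⟩ := hp
      refine ⟨⟨lp u i, lp_lt u i⟩, Finset.mem_univ _, ?_⟩
      apply Vert.ext'
      · rw [ht_downV, h1]; omega
      · intro j
        rw [lp_downV]
        split_ifs with hj
        · have : j = i := Nat.pow_right_injective le_rfl (hj.trans hi.symm)
          rw [this]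
        · exact h2 j (by omega)
    · refine ⟨0, Finset.mem_univ _, ?_⟩
      apply Vert.ext'
      · rw [ht_downV, h1]; omega
      · intro j
        have hj : 2 ^ j ≠ ht v := fun h => hp ⟨j, h⟩
        rw [lp_downV, if_neg hj, h2 j (by omega)]

open Classical in
/-- all neighbours -/
noncomputable def nb (v : Vert) : Finset Vert := upN v ∪ downN v

lemma mem_nb (v u : Vert) : u ∈ nb v ↔ gr.Adj v u := by
  classical
  unfold nb
  rw [Finset.mem_union, mem_upN, mem_downN]
  rfl

lemma disj_nb (v : Vert) : Disjoint (upN v) (downN v) := by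
  rw [Finset.disjoint_left]
  intro u h1 h2
  rw [mem_upN] at h1
  rw [mem_downN] at h2
  have := h1.1; have := h2.1; omega

/-- number of up neighbours -/
noncomputable def upc (x : ℕ) : ℕ := if IsPow (x + 1) then 2 else 1

/-- number of down neighbours -/
noncomputable def downc (x : ℕ) : ℕ := if x = 0 then 0 else if IsPow x then 8 else 1

lemma sum_upN {M : Type*} [AddCommMonoid M] (v : Vert) (f : Vert → M) :
    ∑ u ∈ upN v, f u = if IsPow (ht v + 1) then f (upV v 0) + f (upV v 1) else f (upV v 0) := by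
  classical
  unfold upN
  split_ifs with hp
  · obtain ⟨i, hi⟩ := hp
    rw [Finset.sum_image]
    · rw [Fin.sum_univ_two]
    · intro a _ b _ hab
      have : lp (upV v a) i = lp (upV v b) i := by rw [hab]
      rw [lp_upV, lp_upV, if_pos hi, if_pos hi] at this
      exact Fin.ext this
  · have : (Finset.univ.image (upV v)) = {upV v 0} := by
      apply Finset.eq_singleton_iff_unique_mem.2
      refine ⟨Finset.mem_image_of_mem _ (Finset.mem_univ _), ?_⟩
      intro u hu
      obtain ⟨a, _, rfl⟩ := Finset.mem_image.1 hu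
      refine Vert.ext' (by rfl) fun j => ?_
      have hj : 2 ^ j ≠ ht v + 1 := fun h => hp ⟨j, h⟩
      rw [lp_upV, lp_upV, if_neg hj, if_neg hj]
    rw [this, Finset.sum_singleton]

lemma sum_downN {M : Type*} [AddCommMonoid M] (v : Vert) (h0 : ht v ≠ 0) (f : Vert → M) :
    ∑ u ∈ downN v, f u = if IsPow (ht v) then ∑ a, f (downV v a) else f (downV v 0) := by
  classical
  unfold downN
  rw [if_neg h0]
  split_ifs with hp
  · obtain ⟨i, hi⟩ := hp
    rw [Finset.sum_image]
    intro a _ b _ hab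
    have : lp (downV v a) i = lp (downV v b) i := by rw [hab]
    rw [lp_downV, lp_downV, if_pos hi, if_pos hi] at this
    exact Fin.ext this
  · have : (Finset.univ.image (downV v)) = {downV v 0} := by
      apply Finset.eq_singleton_iff_unique_mem.2
      refine ⟨Finset.mem_image_of_mem _ (Finset.mem_univ _), ?_⟩
      intro u hu
      obtain ⟨a, _, rfl⟩ := Finset.mem_image.1 hu
      refine Vert.ext' (by rfl) fun j => ?_
      have hj : 2 ^ j ≠ ht v := fun h => hp ⟨j, h⟩
      rw [lp_downV, lp_downV, if_neg hj, if_neg hj]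
    rw [this, Finset.sum_singleton]

/-- sum over the up neighbours of a function which is constant on them -/
lemma sum_upN_const {M : Type*} [AddCommMonoid M] (v : Vert) (f : Vert → M) (c : M)
    (h : ∀ u, Up v u → f u = c) : ∑ u ∈ upN v, f u = upc (ht v) • c := by
  classical
  have h0 : ∀ a, f (upV v a) = c := fun a => h _ ((mem_upN v _).1
    (Finset.mem_image_of_mem _ (Finset.mem_univ a)))
  rw [sum_upN, h0, h0]
  unfold upc
  split_ifs
  · rw [two_nsmul]
  · rw [one_nsmul]

lemma sum_downN_const {M : Type*} [AddCommMonoid M] (v : Vert) (f : Vert → M) (c : M)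
    (h : ∀ u, Up u v → f u = c) : ∑ u ∈ downN v, f u = downc (ht v) • c := by
  classical
  by_cases h0 : ht v = 0
  · unfold downN downc
    rw [if_pos h0, if_pos h0]; simp
  have h1 : ∀ a, f (downV v a) = c := fun a => h _ ((mem_downN v _).1 (by
    unfold downN; rw [if_neg h0]
    exact Finset.mem_image_of_mem _ (Finset.mem_univ a)))
  rw [sum_downN v h0]
  unfold downc
  rw [if_neg h0]
  simp only [h1]
  split_ifs
  · simp
  · rw [one_nsmul]

lemma card_nb (v : Vert) : (nb v).card = upc (ht v) + downc (ht v) := by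
  classical
  unfold nb
  rw [Finset.card_union_of_disjoint (disj_nb v), Finset.card_eq_sum_ones, Finset.card_eq_sum_ones,
    sum_upN_const v _ 1 (fun _ _ => rfl), sum_downN_const v _ 1 (fun _ _ => rfl)]
  simp

lemma upc_pos (x : ℕ) : 0 < upc x := by unfold upc; split_ifs <;> norm_num

lemma upc_le (x : ℕ) : upc x ≤ 2 := by unfold upc; split_ifs <;> norm_num

lemma downc_le (x : ℕ) : downc x ≤ 8 := by unfold downc; split_ifs <;> norm_num

lemma downc_zero : downc 0 = 0 := by unfold downc; simp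

/-! ### Connectedness -/

lemma reach_of_eq {u v : Vert} (h : u = v) : gr.Reachable u v := h ▸ SimpleGraph.Reachable.refl _

lemma reach_down (v : Vert) : gr.Reachable v ⟨(0, lp v), lp_lt v, by
    intro j hj
    have : 0 < 2 ^ j := by positivity
    simp at hj, lp_fin v⟩ := by
  obtain ⟨⟨x, w⟩, hv1, hv2, hv3⟩ := v
  induction x with
  | zero => exact SimpleGraph.Reachable.refl _
  | succ x ih =>
    have hv2' : ∀ j, 2 ^ j ≤ ((x, w) : ℕ × (ℕ → ℕ)).1 → ((x, w) : ℕ × (ℕ → ℕ)).2 j < 2 :=
      fun j hj => hv2 j (Nat.le_succ_of_le hj)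
    have h1 : gr.Adj ⟨(x + 1, w), hv1, hv2, hv3⟩ ⟨(x, w), hv1, hv2', hv3⟩ := by
      right
      exact ⟨rfl, fun j _ => rfl⟩
    exact h1.reachable.trans (ih hv1 hv2' hv3)

/-- `(0,w)` is connected to `(m, w with the lamps up to height m switched off)` -/
lemma reach_up (w : ℕ → ℕ) (h1 : ∀ j, w j < 8) (h3 : {j | w j ≠ 0}.Finite) (m : ℕ) :
    gr.Reachable ⟨(0, w), h1, by
      intro j hj
      have : 0 < 2 ^ j := by positivity
      simp at hj, h3⟩
    ⟨(m, fun j => if 2 ^ j ≤ m then 0 else w j), by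
      intro j; dsimp only; split_ifs
      · norm_num
      · exact h1 j, by
      intro j hj; dsimp only at hj ⊢; rw [if_pos hj]; norm_num, by
      apply h3.subset
      intro j hj
      simp only [Set.mem_ofPred_eq] at hj ⊢
      by_contra hc
      apply hj; rw [hc]; simp⟩ := by
  induction m with
  | zero =>
    apply reach_of_eq
    refine Vert.ext' (by rfl) fun j => ?_
    have : 0 < 2 ^ j := by positivity
    change w j = if 2 ^ j ≤ 0 then 0 else w j
    rw [if_neg (by omega)]
  | succ m ih =>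
    refine ih.trans (SimpleGraph.Adj.reachable ?_)
    left
    refine ⟨rfl, fun j hj => ?_⟩
    change (if 2 ^ j ≤ m + 1 then 0 else w j) = if 2 ^ j ≤ m then 0 else w j
    change 2 ^ j ≠ m + 1 at hj
    by_cases hc : 2 ^ j ≤ m
    · rw [if_pos hc, if_pos (by omega)]
    · rw [if_neg hc, if_neg (by omega)]

lemma reach_base (v : Vert) : gr.Reachable v (base 0) := by
  obtain ⟨N, hN⟩ := (lp_fin v).bddAbove
  have h1 := reach_down v
  have h2 := reach_up (lp v) (lp_lt v) (lp_fin v) (2 ^ N)
  have h3 := reach_down (base (2 ^ N))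
  refine h1.trans (h2.trans ?_)
  refine (reach_of_eq (Vert.ext' (v := base (2 ^ N)) (by rfl) fun j => ?_)).trans h3
  change (if 2 ^ j ≤ 2 ^ N then 0 else lp v j) = 0
  split_ifs with h
  · rfl
  · by_contra hc
    have : j ≤ N := hN hc
    exact h (Nat.pow_le_pow_right (by norm_num) this)

lemma gr_connected : gr.Connected := by
  have : Nonempty Vert := ⟨base 0⟩
  exact ⟨fun u v => (reach_base u).trans (reach_base v).symm⟩

/-! ### The weighted graph -/

/-- unit weights -/
noncomputable def wt0 (v u : Vert) : ℝ := by classical exact if gr.Adj v u then 1 else 0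

lemma wt0_adj {v u : Vert} (h : gr.Adj v u) : wt0 v u = 1 := by
  unfold wt0; rw [if_pos h]

lemma wt0_not {v u : Vert} (h : ¬ gr.Adj v u) : wt0 v u = 0 := by
  unfold wt0; rw [if_neg h]

lemma hasSum_wt0 (v : Vert) (f : Vert → ℝ) :
    HasSum (fun u => wt0 v u * f u) (∑ u ∈ nb v, f u) := by
  have h1 : ∑ u ∈ nb v, f u = ∑ u ∈ nb v, wt0 v u * f u := by
    refine Finset.sum_congr rfl fun u hu => ?_
    rw [wt0_adj ((mem_nb v u).1 hu), one_mul]
  rw [h1]
  apply hasSum_sum_of_ne_finset_zero
  intro u hu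
  rw [wt0_not (fun h => hu ((mem_nb v u).2 h)), zero_mul]

/-- degree as a function of the height -/
noncomputable def dg (x : ℕ) : ℝ := (upc x : ℝ) + (downc x : ℝ)

lemma dg_pos (x : ℕ) : 0 < dg x := by
  unfold dg
  have : (0 : ℝ) < upc x := by exact_mod_cast upc_pos x
  positivity

/-- the weighted graph -/
noncomputable def G0 : WGraph Vert where
  graph := gr
  conn := gr_connected
  wt := wt0
  wt_symm := by
    intro v w
    by_cases h : gr.Adj v w
    · rw [wt0_adj h, wt0_adj h.symm]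
    · rw [wt0_not h, wt0_not (fun h' => h h'.symm)]
  wt_pos := by intro v w h; rw [wt0_adj h]; norm_num
  wt_zero := fun v w h => wt0_not h
  wt_summable := by
    intro v
    have := (hasSum_wt0 v (fun _ => 1)).summable
    simpa using this

lemma total_G0 (v : Vert) : G0.total v = dg (ht v) := by
  unfold WGraph.total dg
  have := (hasSum_wt0 v (fun _ => 1)).tsum_eq
  simp only [mul_one, Finset.sum_const, card_nb, nsmul_eq_mul] at this
  change ∑' w, wt0 v w = _
  rw [this]; push_cast; ring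

lemma P_G0 (v u : Vert) : G0.P v u = wt0 v u / dg (ht v) := by
  unfold WGraph.P
  rw [total_G0]; rfl

lemma hasSum_P (v : Vert) (f : Vert → ℝ) :
    HasSum (fun u => G0.P v u * f u) ((∑ u ∈ nb v, f u) / dg (ht v)) := by
  have e : (fun u => G0.P v u * f u) = fun u => wt0 v u * f u / dg (ht v) := by
    funext u; rw [P_G0]; ring
  rw [e]
  exact (hasSum_wt0 v f).div_const (dg (ht v))

/-! ### Automorphisms -/

/-- exchange `w j` and `w' j` at every lamp `j` lying on the same side as seen from `x` -/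
def swapMap (w w' : Vert) (h : ht w = ht w') (z : Vert) : Vert :=
  ⟨(ht z, fun j => if (2 ^ j ≤ ht w ↔ 2 ^ j ≤ ht z) then Equiv.swap (lp w j) (lp w' j) (lp z j)
    else lp z j), by
    refine ⟨fun j => ?_, fun j hj => ?_, ?_⟩
    · dsimp only
      split_ifs
      · rw [Equiv.swap_apply_def]
        have := lp_lt w j; have := lp_lt w' j; have := lp_lt z j
        split_ifs <;> assumption
      · exact lp_lt z j
    · dsimp only at hj ⊢
      split_ifs with hc
      · rw [Equiv.swap_apply_def]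
        have h1 : 2 ^ j ≤ ht w := hc.2 hj
        have := lp_lt_two w j h1
        have := lp_lt_two w' j (by omega)
        have := lp_lt_two z j hj
        split_ifs <;> assumption
      · exact lp_lt_two z j hj
    · apply (((lp_fin w).union (lp_fin w')).union (lp_fin z)).subset
      intro j hj
      by_contra hc
      simp only [Set.mem_union, Set.mem_ofPred_eq, not_or, not_not] at hc
      apply hj
      dsimp only
      rw [hc.1.1, hc.1.2, hc.2]
      simp⟩

lemma ht_swapMap (w w' : Vert) (h : ht w = ht w') (z : Vert) : ht (swapMap w w' h z) = ht z := rfl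

lemma lp_swapMap (w w' : Vert) (h : ht w = ht w') (z : Vert) (j : ℕ) :
    lp (swapMap w w' h z) j = if (2 ^ j ≤ ht w ↔ 2 ^ j ≤ ht z) then
      Equiv.swap (lp w j) (lp w' j) (lp z j) else lp z j := rfl

lemma swapMap_invol (w w' : Vert) (h : ht w = ht w') :
    Function.Involutive (swapMap w w' h) := by
  intro z
  refine Vert.ext' (by rfl) fun j => ?_
  rw [lp_swapMap, ht_swapMap, lp_swapMap]
  split_ifs
  · simp
  · rfl

lemma swapMap_self (w w' : Vert) (h : ht w = ht w') : swapMap w w' h w = w' := by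
  refine Vert.ext' h fun j => ?_
  rw [lp_swapMap, if_pos Iff.rfl]
  simp

lemma swapMap_up (w w' : Vert) (h : ht w = ht w') {y z : Vert} (hyz : Up y z) :
    Up (swapMap w w' h y) (swapMap w w' h z) := by
  refine ⟨hyz.1, fun j hj => ?_⟩
  rw [ht_swapMap] at hj
  have h1 := hyz.2 j hj
  have h2 := hyz.1
  have h3 : (2 ^ j ≤ ht w ↔ 2 ^ j ≤ ht z) ↔ (2 ^ j ≤ ht w ↔ 2 ^ j ≤ ht y) := by
    have : 2 ^ j ≤ ht z ↔ 2 ^ j ≤ ht y := by
      constructor <;> intro h <;> omega
    rw [this]
  rw [lp_swapMap, lp_swapMap, h1]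
  by_cases hc : (2 ^ j ≤ ht w ↔ 2 ^ j ≤ ht y)
  · rw [if_pos hc, if_pos (h3.2 hc)]
  · rw [if_neg hc, if_neg (fun h' => hc (h3.1 h'))]

lemma swapMap_adj (w w' : Vert) (h : ht w = ht w') (y z : Vert) :
    gr.Adj (swapMap w w' h y) (swapMap w w' h z) ↔ gr.Adj y z := by
  have key : ∀ y z, gr.Adj y z → gr.Adj (swapMap w w' h y) (swapMap w w' h z) := by
    rintro y z (h1 | h1)
    · exact Or.inl (swapMap_up w w' h h1)
    · exact Or.inr (swapMap_up w w' h h1)
  constructor
  · intro h1
    have := key _ _ h1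
    rwa [swapMap_invol w w' h y, swapMap_invol w w' h z] at this
  · exact key y z

lemma rootedIso_of_ht_eq (w w' : Vert) (h : ht w = ht w') : WGraph.RootedIso G0 w G0 w' := by
  refine ⟨(swapMap_invol w w' h).toPerm, swapMap_self w w' h, fun y z => ?_⟩
  change G0.P (swapMap w w' h y) (swapMap w w' h z) = G0.P y z
  rw [P_G0, P_G0, ht_swapMap]
  congr 1
  by_cases hc : gr.Adj y z
  · rw [wt0_adj hc, wt0_adj ((swapMap_adj w w' h y z).2 hc)]
  · rw [wt0_not hc, wt0_not (fun h' => hc ((swapMap_adj w w' h y z).1 h'))]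

/-! ### Sizes -/

lemma size_succ (x : ℕ) : Nat.size (x + 1) = Nat.size x + (if IsPow (x + 1) then 1 else 0) := by
  split_ifs with h
  · obtain ⟨j, hj⟩ := h
    rw [← hj, Nat.size_pow]
    congr 1
    apply le_antisymm
    · rcases j with _ | i
      · exact Nat.zero_le _
      · rw [Nat.succ_le_iff, Nat.lt_size]
        have : 0 < 2 ^ i := by positivity
        rw [pow_succ] at hj
        omega
    · rw [Nat.size_le]; omega
  · apply le_antisymm
    · rw [add_zero, Nat.size_le]
      have h1 : x < 2 ^ Nat.size x := Nat.lt_size_self x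
      have h2 : x + 1 ≠ 2 ^ Nat.size x := fun h' => h ⟨_, h'.symm⟩
      omega
    · exact Nat.size_le_size (Nat.le_succ x)

lemma updown (x : ℕ) : downc (x + 1) * 4 ^ Nat.size x = upc x * 4 ^ Nat.size (x + 1) := by
  rw [size_succ]
  unfold downc upc
  rw [if_neg (Nat.succ_ne_zero x)]
  split_ifs
  · rw [pow_succ]; ring
  · simp

lemma succ_le_two_pow_size (x : ℕ) : x + 1 ≤ 2 ^ Nat.size x := Nat.lt_size_self x

lemma two_pow_size_le (x : ℕ) : 2 ^ Nat.size x ≤ 2 * (x + 1) := by
  rcases Nat.eq_zero_or_pos (Nat.size x) with h | h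
  · rw [h]; omega
  · obtain ⟨i, hi⟩ : ∃ i, Nat.size x = i + 1 := ⟨Nat.size x - 1, by omega⟩
    have h2 : 2 ^ i ≤ x := Nat.lt_size.1 (by omega)
    rw [hi, pow_succ]; omega

/-! ### Harmonic functions -/

/-- increments of the radial function -/
noncomputable def D (y : ℕ) : ℝ := 4 ^ Nat.size y / (upc y : ℝ)

lemma D_pos (y : ℕ) : 0 < D y := by
  unfold D
  have : (0 : ℝ) < upc y := by exact_mod_cast upc_pos y
  positivity

lemma D_le (y : ℕ) : D y ≤ 4 * ((y : ℝ) + 1) ^ 2 := by
  have h1 : (1 : ℝ) ≤ upc y := by exact_mod_cast upc_pos y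
  have h2 : (2 : ℝ) ^ Nat.size y ≤ 2 * (y + 1) := by exact_mod_cast two_pow_size_le y
  have h3 : (4 : ℝ) ^ Nat.size y = (2 ^ Nat.size y) ^ 2 := by
    rw [← pow_mul, mul_comm, pow_mul]; norm_num
  unfold D
  calc (4 : ℝ) ^ Nat.size y / (upc y : ℝ) ≤ 4 ^ Nat.size y := div_le_self (by positivity) h1
    _ = (2 ^ Nat.size y) ^ 2 := h3
    _ ≤ (2 * ((y : ℝ) + 1)) ^ 2 := pow_le_pow_left₀ (by positivity) h2 2
    _ = 4 * ((y : ℝ) + 1) ^ 2 := by ring

/-- radial function of cubic growth -/
noncomputable def T (x : ℕ) : ℝ := ∑ y ∈ Finset.range x, D y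

lemma T_succ (x : ℕ) : T (x + 1) = T x + D x := by unfold T; rw [Finset.sum_range_succ]

lemma T_nonneg (x : ℕ) : 0 ≤ T x := Finset.sum_nonneg fun y _ => (D_pos y).le

lemma T_mono {x y : ℕ} (h : x ≤ y) : T x ≤ T y := by
  unfold T
  exact Finset.sum_le_sum_of_subset_of_nonneg (Finset.range_mono h) fun z _ _ => (D_pos z).le

lemma T_le (x : ℕ) : T x ≤ 4 * (x : ℝ) ^ 3 := by
  unfold T
  calc ∑ y ∈ Finset.range x, D y ≤ ∑ _y ∈ Finset.range x, 4 * (x : ℝ) ^ 2 := by
        refine Finset.sum_le_sum fun y hy => (D_le y).trans ?_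
        have : (y : ℝ) + 1 ≤ x := by exact_mod_cast Finset.mem_range.1 hy
        have h0 : (0 : ℝ) ≤ (y : ℝ) + 1 := by positivity
        have := pow_le_pow_left₀ h0 this 2
        linarith
    _ = 4 * (x : ℝ) ^ 3 := by
        rw [Finset.sum_const, Finset.card_range, nsmul_eq_mul]; ring

lemma flux (x : ℕ) : (downc (x + 1) : ℝ) * D x = upc (x + 1) * D (x + 1) := by
  have h1 : (downc (x + 1) : ℝ) * 4 ^ Nat.size x = upc x * 4 ^ Nat.size (x + 1) := by
    exact_mod_cast updown x
  have h2 : (0 : ℝ) < upc x := by exact_mod_cast upc_pos x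
  have h3 : (0 : ℝ) < upc (x + 1) := by exact_mod_cast upc_pos (x + 1)
  unfold D
  field_simp
  linarith

/-- the harmonic function attached to lamp `i` -/
noncomputable def hf (i : ℕ) (v : Vert) : ℝ :=
  if 2 ^ i ≤ ht v then (1 - 2 * (lp v i : ℝ)) * (T (ht v) - T (2 ^ i - 1)) else 0

lemma sum_nb_hf (i : ℕ) (v : Vert) : ∑ u ∈ nb v, hf i u = dg (ht v) * hf i v := by
  classical
  unfold nb
  rw [Finset.sum_union (disj_nb v)]
  have hpi : 0 < 2 ^ i := by positivity
  rcases lt_trichotomy (ht v + 1) (2 ^ i) with hlt | heq | hgt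
  · -- below the lamp
    rw [sum_upN_const v _ 0, sum_downN_const v _ 0]
    · unfold hf; rw [if_neg (by omega)]; simp
    · intro u hu; unfold hf; have := hu.1; rw [if_neg (by omega)]
    · intro u hu; unfold hf; have := hu.1; rw [if_neg (by omega)]
  · -- just below the lamp
    have hp : IsPow (ht v + 1) := ⟨i, heq.symm⟩
    rw [sum_upN, if_pos hp, sum_downN_const v _ 0]
    · have e1 : hf i (upV v 0) = T (2 ^ i) - T (2 ^ i - 1) := by
        unfold hf
        rw [ht_upV, if_pos heq.ge, lp_upV, if_pos heq.symm, heq]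
        simp
      have e2 : hf i (upV v 1) = -(T (2 ^ i) - T (2 ^ i - 1)) := by
        unfold hf
        rw [ht_upV, if_pos heq.ge, lp_upV, if_pos heq.symm, heq]
        simp; ring
      have e3 : hf i v = 0 := by unfold hf; rw [if_neg (by omega)]
      rw [e1, e2, e3]; simp
    · intro u hu; unfold hf; have := hu.1; rw [if_neg (by omega)]
  · -- above the lamp
    have hge : 2 ^ i ≤ ht v := by omega
    obtain ⟨y, hy⟩ : ∃ y, ht v = y + 1 := ⟨ht v - 1, by omega⟩
    set sg : ℝ := 1 - 2 * (lp v i : ℝ) with hsg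
    set T0 : ℝ := T (2 ^ i - 1) with hT0
    rw [sum_upN_const v _ (sg * (T (ht v + 1) - T0)), sum_downN_const v _ (sg * (T y - T0))]
    · have e3 : hf i v = sg * (T (ht v) - T0) := by unfold hf; rw [if_pos hge]
      rw [e3, nsmul_eq_mul, nsmul_eq_mul, hy, T_succ (y + 1), T_succ y]
      have hfl := flux y
      unfold dg
      linear_combination (-sg) * hfl
    · intro u hu
      have h1 : ht u = y := by have := hu.1; omega
      unfold hf
      by_cases hc : 2 ^ i ≤ ht u
      · rw [if_pos hc, h1]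
        have h2 := hu.2 i (by omega)
        rw [← h2]
      · rw [if_neg hc]
        have h3 : y = 2 ^ i - 1 := by omega
        rw [hT0, h3]; ring
    · intro u hu
      have h1 := hu.1
      unfold hf
      rw [if_pos (by omega), h1, hu.2 i (by omega)]

lemma hf_harmonic (i : ℕ) (v : Vert) : HasSum (fun u => G0.P v u * hf i u) (hf i v) := by
  have h := hasSum_P v (hf i)
  rw [sum_nb_hf, mul_div_cancel_left₀ _ (dg_pos _).ne'] at h
  exact h

lemma abs_hf_le (i : ℕ) (v : Vert) : |hf i v| ≤ 4 * (1 + (ht v : ℝ)) ^ 3 := by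
  unfold hf
  split_ifs with hc
  · have h1 := lp_lt_two v i hc
    have h2 : |1 - 2 * (lp v i : ℝ)| = 1 := by
      have : lp v i = 0 ∨ lp v i = 1 := by omega
      rcases this with h | h <;> rw [h] <;> norm_num
    have h3 : T (2 ^ i - 1) ≤ T (ht v) := T_mono (by omega)
    have h4 := T_nonneg (2 ^ i - 1)
    have h5 := T_le (ht v)
    have h0 : (0 : ℝ) ≤ ht v := Nat.cast_nonneg _
    have h6 : (ht v : ℝ) ^ 3 ≤ (1 + (ht v : ℝ)) ^ 3 := pow_le_pow_left₀ h0 (by linarith) 3
    rw [abs_mul, h2, one_mul, abs_of_nonneg (by linarith)]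
    linarith
  · rw [abs_zero]; positivity

/-! ### Distances -/

lemma walk_bounds {u v : Vert} (p : gr.Walk u v) :
    ht v ≤ ht u + p.length ∧ ht u ≤ ht v + p.length ∧
    ∀ j, lp v j ≠ lp u j → 2 ^ j ≤ ht u + p.length ∧ ht u < 2 ^ j + p.length := by
  induction p with
  | nil => exact ⟨le_rfl, le_rfl, fun j hj => absurd rfl hj⟩
  | @cons u w v hadj p ih =>
    obtain ⟨i1, i2, i3⟩ := ih
    rw [SimpleGraph.Walk.length_cons]
    have hstep : ht w ≤ ht u + 1 ∧ ht u ≤ ht w + 1 ∧
        ∀ j, lp w j ≠ lp u j → 2 ^ j ≤ ht u + 1 ∧ ht u ≤ 2 ^ j := by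
      rcases hadj with h | h
      · have h1 := h.1
        refine ⟨by omega, by omega, fun j hj => ?_⟩
        have : 2 ^ j = ht u + 1 := by
          by_contra hc; exact hj (h.2 j hc)
        omega
      · have h1 := h.1
        refine ⟨by omega, by omega, fun j hj => ?_⟩
        have : 2 ^ j = ht w + 1 := by
          by_contra hc; exact hj (h.2 j hc).symm
        omega
    refine ⟨by omega, by omega, fun j hj => ?_⟩
    by_cases hc : lp v j = lp w j
    · have := hstep.2.2 j (by rw [← hc]; exact hj)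
      omega
    · have := i3 j hc
      omega

lemma ht_le_dist (u v : Vert) : ht v ≤ ht u + gr.dist u v := by
  obtain ⟨p, hp⟩ := (gr_connected.preconnected u v).exists_walk_length_eq_dist
  have := (walk_bounds p).1
  rwa [hp] at this

lemma hf_mem (i : ℕ) (ρ : Vert) : hf i ∈ G0.H ρ 3 := by
  refine ⟨hf_harmonic i, 4 * (1 + (ht ρ : ℝ)) ^ 3, fun v => ?_⟩
  have e : (1 + (G0.graph.dist ρ v : ℝ)) ^ (3 : ℝ) = (1 + (gr.dist ρ v : ℝ)) ^ 3 := by
    have := Real.rpow_natCast (1 + (gr.dist ρ v : ℝ)) 3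
    push_cast at this
    exact this
  rw [e]
  refine (abs_hf_le i v).trans ?_
  have h1 : (ht v : ℝ) ≤ ht ρ + gr.dist ρ v := by exact_mod_cast ht_le_dist ρ v
  have h2 : (0 : ℝ) ≤ ht ρ := Nat.cast_nonneg _
  have h3 : (0 : ℝ) ≤ gr.dist ρ v := Nat.cast_nonneg _
  have h4 : (0 : ℝ) ≤ ht v := Nat.cast_nonneg _
  have h5 : 1 + (ht v : ℝ) ≤ (1 + (ht ρ : ℝ)) * (1 + (gr.dist ρ v : ℝ)) := by nlinarith
  have h6 := pow_le_pow_left₀ (by linarith) h5 3
  rw [mul_pow] at h6
  linarith

lemma hf_base_self (i : ℕ) : 0 < hf i (base (2 ^ i)) := by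
  unfold hf
  have hpi : 0 < 2 ^ i := by positivity
  obtain ⟨y, hy⟩ : ∃ y, 2 ^ i = y + 1 := ⟨2 ^ i - 1, by omega⟩
  rw [ht_base, if_pos le_rfl, lp_base, hy, Nat.add_sub_cancel, T_succ]
  simp only [Nat.cast_zero, mul_zero, sub_zero, one_mul, add_sub_cancel_left]
  exact D_pos y

lemma hf_base_lt (i j : ℕ) (h : i < j) : hf j (base (2 ^ i)) = 0 := by
  unfold hf
  have : 2 ^ i < 2 ^ j := Nat.pow_lt_pow_right (by norm_num) h
  rw [ht_base, if_neg (by omega)]

lemma hf_linearIndependent (ρ : Vert) :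
    LinearIndependent ℝ (fun i : ℕ => (⟨hf i, hf_mem i ρ⟩ : G0.H ρ 3)) := by
  classical
  rw [linearIndependent_iff']
  intro s g hg i hi
  have hval : ∀ v : Vert, ∑ j ∈ s, g j * hf j v = 0 := by
    intro v
    have h1 := congrArg (fun z : G0.H ρ 3 => (z : Vert → ℝ) v) hg
    simpa [Finset.sum_apply] using h1
  by_contra hne
  set s' := s.filter (fun j => g j ≠ 0) with hs'
  have hne' : s'.Nonempty := ⟨i, Finset.mem_filter.2 ⟨hi, hne⟩⟩
  set i0 := s'.min' hne' with hi0
  have hmem := Finset.min'_mem s' hne'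
  rw [← hi0, hs', Finset.mem_filter] at hmem
  have h2 := hval (base (2 ^ i0))
  rw [Finset.sum_eq_single i0] at h2
  · rcases mul_eq_zero.1 h2 with h | h
    · exact hmem.2 h
    · exact (hf_base_self i0).ne' h
  · intro j hj hji
    by_cases hgj : g j = 0
    · rw [hgj, zero_mul]
    · have : i0 ≤ j := Finset.min'_le s' j (Finset.mem_filter.2 ⟨hj, hgj⟩)
      rw [hf_base_lt i0 j (lt_of_le_of_ne this (Ne.symm hji)), mul_zero]
  · intro h; exact absurd hmem.1 h

lemma not_finiteDimensional (ρ : Vert) : ¬ FiniteDimensional ℝ (G0.H ρ 3) := by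
  intro h
  have := (hf_linearIndependent ρ).finite
  exact not_finite ℕ

/-! ### Growth -/

/-- the lamps that can be reached from height `x` in `n` steps -/
noncomputable def JJ (x n : ℕ) : Finset ℕ :=
  (Finset.range (x + n + 1)).filter (fun j => 2 ^ j ≤ x + n ∧ x < 2 ^ j + n)

lemma mem_JJ {x n j : ℕ} : j ∈ JJ x n ↔ 2 ^ j ≤ x + n ∧ x < 2 ^ j + n := by
  unfold JJ
  rw [Finset.mem_filter, Finset.mem_range]
  constructor
  · exact fun h => h.2
  · intro h
    have : j < 2 ^ j := Nat.lt_two_pow_self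
    exact ⟨by omega, h⟩

lemma card_JJ_le (x n : ℕ) : (JJ x n).card ≤ Nat.size n + 2 := by
  classical
  have h1 : ((JJ x n).filter (fun j => 2 ^ j < 2 * n)).card ≤ Nat.size n + 1 := by
    have hsub : (JJ x n).filter (fun j => 2 ^ j < 2 * n) ⊆ Finset.range (Nat.size n + 1) := by
      intro j hj
      rw [Finset.mem_filter] at hj
      rw [Finset.mem_range]
      rcases j with _ | i
      · omega
      · have : 2 ^ i ≤ n := by have := hj.2; rw [pow_succ] at this; omega
        have := Nat.lt_size.2 this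
        omega
    have := Finset.card_le_card hsub
    rwa [Finset.card_range] at this
  have h2 : ((JJ x n).filter (fun j => ¬ 2 ^ j < 2 * n)).card ≤ 1 := by
    rw [Finset.card_le_one]
    have key : ∀ a b, a ∈ (JJ x n).filter (fun j => ¬ 2 ^ j < 2 * n) →
        b ∈ (JJ x n).filter (fun j => ¬ 2 ^ j < 2 * n) → ¬ a < b := by
      intro a b ha hb hab
      rw [Finset.mem_filter, mem_JJ] at ha hb
      have h3 : 2 ^ (a + 1) ≤ 2 ^ b := Nat.pow_le_pow_right (by norm_num) hab
      rw [pow_succ] at h3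
      omega
    intro a ha b hb
    have := key a b ha hb
    have := key b a hb ha
    omega
  have h3 := Finset.card_filter_add_card_filter_not (s := JJ x n) (fun j => 2 ^ j < 2 * n)
  omega

lemma pow_size_le (n : ℕ) (hn : 1 ≤ n) : 2 ^ Nat.size n ≤ 2 * n := by
  obtain ⟨i, hi⟩ : ∃ i, Nat.size n = i + 1 := by
    refine ⟨Nat.size n - 1, ?_⟩
    have : 0 < Nat.size n := Nat.size_pos.2 hn
    omega
  have h2 : 2 ^ i ≤ n := Nat.lt_size.1 (by omega)
  rw [hi, pow_succ]; omega

lemma encard_ball_le (u : Vert) (n : ℕ) (hn : 1 ≤ n) :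
    (G0.ball u n).encard ≤ ((1536 * n ^ 4 : ℕ) : ℕ∞) := by
  classical
  let f : Vert → ℕ × (JJ (ht u) n → Fin 8) := fun v => (ht v, fun j => ⟨lp v j, lp_lt v j⟩)
  have hb : ∀ v ∈ G0.ball u n, ht v ≤ ht u + n ∧ ht u ≤ ht v + n ∧
      ∀ j, lp v j ≠ lp u j → j ∈ JJ (ht u) n := by
    intro v hv
    obtain ⟨p, hp⟩ := (gr_connected.preconnected u v).exists_walk_length_eq_dist
    have hv' : gr.dist u v ≤ n := hv
    have h := walk_bounds p
    rw [hp] at h
    refine ⟨by omega, by omega, fun j hj => ?_⟩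
    have := h.2.2 j hj
    rw [mem_JJ]; omega
  have hmaps : Set.MapsTo f (G0.ball u n)
      ((Finset.Icc (ht u - n) (ht u + n) ×ˢ (Finset.univ : Finset (JJ (ht u) n → Fin 8)) :
        Finset (ℕ × (JJ (ht u) n → Fin 8))) : Set (ℕ × (JJ (ht u) n → Fin 8))) := by
    intro v hv
    have := hb v hv
    simp only [f, Finset.coe_product, Set.mem_prod, Finset.mem_coe, Finset.mem_Icc,
      Finset.mem_univ, and_true]
    omega
  have hinj : Set.InjOn f (G0.ball u n) := by
    intro v hv v' hv' hvv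
    have h1 : (f v).1 = (f v').1 := by rw [hvv]
    have h2 : (f v).2 = (f v').2 := by rw [hvv]
    refine Vert.ext' h1 fun j => ?_
    by_cases hj : j ∈ JJ (ht u) n
    · have := congrFun h2 ⟨j, hj⟩
      exact Fin.mk.inj_iff.1 this
    · have e1 : lp v j = lp u j := by
        by_contra hc; exact hj ((hb v hv).2.2 j hc)
      have e2 : lp v' j = lp u j := by
        by_contra hc; exact hj ((hb v' hv').2.2 j hc)
      rw [e1, e2]
  refine (Set.encard_le_encard_of_injOn hmaps hinj).trans ?_
  rw [Set.encard_coe_eq_coe_finsetCard]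
  norm_cast
  rw [Finset.card_product, Nat.card_Icc, Finset.card_univ, Fintype.card_fun, Fintype.card_fin,
    Fintype.card_coe]
  have h1 : ht u + n + 1 - (ht u - n) ≤ 3 * n := by omega
  have h2 : 8 ^ (JJ (ht u) n).card ≤ 512 * n ^ 3 := by
    calc 8 ^ (JJ (ht u) n).card ≤ 8 ^ (Nat.size n + 2) :=
          Nat.pow_le_pow_right (by norm_num) (card_JJ_le _ _)
      _ = 64 * (2 ^ Nat.size n) ^ 3 := by
          rw [pow_add, ← pow_mul, mul_comm (Nat.size n) 3, pow_mul]; norm_num; ring
      _ ≤ 64 * (2 * n) ^ 3 := by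
          have := Nat.pow_le_pow_left (pow_size_le n hn) 3
          omega
      _ = 512 * n ^ 3 := by ring
  calc (ht u + n + 1 - (ht u - n)) * 8 ^ (JJ (ht u) n).card ≤ (3 * n) * (512 * n ^ 3) :=
        Nat.mul_le_mul h1 h2
    _ = 1536 * n ^ 4 := by ring

/-! ### The stationary law of the height of the root -/

/-- relative frequency of the vertices of height `x` -/
noncomputable def kap (x : ℕ) : ℝ≥0∞ := ((4 : ℝ≥0∞) ^ Nat.size x)⁻¹

lemma kap_rel (x : ℕ) : kap (x + 1) * downc (x + 1) = kap x * upc x := by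
  unfold kap
  have h := updown x
  have h' : (downc (x + 1) : ℝ≥0∞) * 4 ^ Nat.size x = upc x * 4 ^ Nat.size (x + 1) := by
    exact_mod_cast h
  have a0 : (4 : ℝ≥0∞) ^ Nat.size x ≠ 0 := by positivity
  have a1 : (4 : ℝ≥0∞) ^ Nat.size x ≠ ∞ := ENNReal.pow_ne_top (by norm_num)
  have b0 : (4 : ℝ≥0∞) ^ Nat.size (x + 1) ≠ 0 := by positivity
  have b1 : (4 : ℝ≥0∞) ^ Nat.size (x + 1) ≠ ∞ := ENNReal.pow_ne_top (by norm_num)
  rw [mul_comm, ← div_eq_mul_inv, mul_comm _ (upc x : ℝ≥0∞), ← div_eq_mul_inv,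
    ENNReal.div_eq_div_iff a0 a1 b0 b1]
  rw [mul_comm, h', mul_comm]

/-- weight of the vertices of height `x` -/
noncomputable def fw (x : ℕ) : ℝ≥0∞ := kap x * ((upc x : ℝ≥0∞) + (downc x : ℝ≥0∞))

lemma fw_ne_zero : tsum fw ≠ 0 := by
  have : fw 0 ≠ 0 := by
    unfold fw kap
    have := upc_pos 0
    rw [downc_zero]
    simp
    omega
  intro h
  rw [ENNReal.tsum_eq_zero] at h
  exact this (h 0)

lemma kap_le (x : ℕ) : kap x ≤ ENNReal.ofReal (1 / ((x : ℝ) + 1) ^ 2) := by
  unfold kap
  rw [one_div, ENNReal.ofReal_inv_of_pos (by positivity), ENNReal.inv_le_inv]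
  have h1 := succ_le_two_pow_size x
  have h2 : (x + 1) ^ 2 ≤ 4 ^ Nat.size x := by
    calc (x + 1) ^ 2 ≤ (2 ^ Nat.size x) ^ 2 := Nat.pow_le_pow_left h1 2
      _ = 4 ^ Nat.size x := by rw [← pow_mul, mul_comm, pow_mul]; norm_num
  have h3 : (((x + 1) ^ 2 : ℕ) : ℝ≥0∞) ≤ ((4 ^ Nat.size x : ℕ) : ℝ≥0∞) := by exact_mod_cast h2
  have h4 : ENNReal.ofReal (((x : ℝ) + 1) ^ 2) = (((x + 1) ^ 2 : ℕ) : ℝ≥0∞) := by
    rw [← ENNReal.ofReal_natCast]; push_cast; rfl
  rw [h4]
  refine h3.trans ?_
  push_cast; exact le_rfl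

lemma fw_ne_top : tsum fw ≠ ∞ := by
  have hs : Summable (fun x : ℕ => 10 * (1 / ((x : ℝ) + 1) ^ 2)) := by
    apply Summable.mul_left
    have := (summable_nat_add_iff 1).2 (Real.summable_one_div_nat_pow.2 (by norm_num : 1 < 2))
    refine this.congr fun x => ?_
    push_cast; rfl
  have hle : ∀ x, fw x ≤ ENNReal.ofReal (10 * (1 / ((x : ℝ) + 1) ^ 2)) := by
    intro x
    unfold fw
    have h1 : ((upc x : ℝ≥0∞) + (downc x : ℝ≥0∞)) ≤ 10 := by
      have h := upc_le x
      have h' := downc_le x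
      have : upc x + downc x ≤ 10 := by omega
      exact_mod_cast this
    calc kap x * ((upc x : ℝ≥0∞) + (downc x : ℝ≥0∞))
        ≤ ENNReal.ofReal (1 / ((x : ℝ) + 1) ^ 2) * 10 := mul_le_mul' (kap_le x) h1
      _ = ENNReal.ofReal (10 * (1 / ((x : ℝ) + 1) ^ 2)) := by
          rw [ENNReal.ofReal_mul (by norm_num), mul_comm]; norm_num
  refine ne_top_of_le_ne_top ?_ (ENNReal.tsum_le_tsum hle)
  rw [← ENNReal.ofReal_tsum_of_nonneg (fun x => by positivity) hs]
  exact ENNReal.ofReal_ne_top

/-- law of the height of the root -/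
noncomputable def pm : PMF ℕ := PMF.normalize fw fw_ne_zero fw_ne_top

lemma balance (a : ℕ → ℝ≥0∞) :
    ∑' x, (kap x * upc x * a (x + 1) + kap x * downc x * a (x - 1)) = ∑' x, fw x * a x := by
  rw [ENNReal.tsum_add]
  have h1 : ∑' x, kap x * downc x * a (x - 1) = ∑' x, kap x * upc x * a x := by
    rw [tsum_eq_zero_add' ENNReal.summable, downc_zero]
    simp only [Nat.cast_zero, mul_zero, zero_mul, zero_add, Nat.add_sub_cancel]
    exact tsum_congr fun x => by rw [kap_rel]
  have h2 : ∑' x, kap x * upc x * a (x + 1) = ∑' x, kap x * downc x * a x := by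
    rw [tsum_eq_zero_add' (f := fun x => kap x * downc x * a x) ENNReal.summable, downc_zero]
    simp only [Nat.cast_zero, mul_zero, zero_mul, zero_add]
    exact tsum_congr fun x => by rw [kap_rel]
  rw [h1, h2, ← ENNReal.tsum_add]
  refine tsum_congr fun x => ?_
  unfold fw
  ring

lemma inner_sum (A : Set Vert) (a : ℕ → ℝ≥0∞) (ha : ∀ v, A.indicator 1 v = a (ht v)) (x : ℕ) :
    ∑' v, ENNReal.ofReal (G0.P (base x) v) * A.indicator 1 v =
      ((upc x : ℝ≥0∞) * a (x + 1) + downc x * a (x - 1)) /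
        ((upc x : ℝ≥0∞) + (downc x : ℝ≥0∞)) := by
  classical
  have hP : ∀ v, ENNReal.ofReal (G0.P (base x) v) =
      if v ∈ nb (base x) then ((upc x : ℝ≥0∞) + (downc x : ℝ≥0∞))⁻¹ else 0 := by
    intro v
    rw [P_G0, ht_base]
    split_ifs with h
    · rw [wt0_adj ((mem_nb _ _).1 h), one_div, ENNReal.ofReal_inv_of_pos (dg_pos x)]
      unfold dg
      rw [ENNReal.ofReal_add (by positivity) (by positivity), ENNReal.ofReal_natCast,
        ENNReal.ofReal_natCast]
    · rw [wt0_not (fun h' => h ((mem_nb _ _).2 h'))]; simp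
  rw [tsum_eq_sum (s := nb (base x))]
  · have h1 : ∀ v ∈ nb (base x), ENNReal.ofReal (G0.P (base x) v) * A.indicator 1 v =
        ((upc x : ℝ≥0∞) + (downc x : ℝ≥0∞))⁻¹ * a (ht v) := by
      intro v hv
      rw [hP, if_pos hv, ha]
    rw [Finset.sum_congr rfl h1, ← Finset.mul_sum]
    have h2 : ∑ v ∈ nb (base x), a (ht v) = (upc x : ℝ≥0∞) * a (x + 1) + downc x * a (x - 1) := by
      unfold nb
      rw [Finset.sum_union (disj_nb _), sum_upN_const _ _ (a (x + 1)),
        sum_downN_const _ _ (a (x - 1))]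
      · simp [nsmul_eq_mul]
      · intro u hu
        have : ht u = x - 1 := by have := hu.1; rw [ht_base] at this; omega
        rw [this]
      · intro u hu
        have : ht u = x + 1 := hu.1
        rw [this]
    rw [h2, div_eq_mul_inv, mul_comm]
  · intro v hv
    rw [hP, if_neg hv, zero_mul]

/-- the stationary random graph -/
noncomputable def S0 : StationaryRandomGraph ℕ Vert where
  μ := pm.toMeasure
  prob := inferInstance
  Γ := fun _ => G0
  ρ := base
  meas_wt := fun v w => measurable_const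
  meas_root := fun v => MeasurableSet.of_discrete
  stationary := by
    classical
    intro A hA _
    set A' : Set Vert := {v | (G0, v) ∈ A} with hA'
    set a : ℕ → ℝ≥0∞ := fun x => A'.indicator 1 (base x) with ha
    have hinv : ∀ v, A'.indicator 1 v = a (ht v) := by
      intro v
      have h := hA G0 v G0 (base (ht v)) (rootedIso_of_ht_eq v (base (ht v)) rfl)
      have hav : a (ht v) = A'.indicator 1 (base (ht v)) := rfl
      rw [hav]
      by_cases hv : v ∈ A'
      · have hv' : base (ht v) ∈ A' := h.1 hv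
        rw [Set.indicator_of_mem hv, Set.indicator_of_mem hv']; rfl
      · have hv' : base (ht v) ∉ A' := fun h' => hv (h.2 h')
        rw [Set.indicator_of_notMem hv, Set.indicator_of_notMem hv']
    have hL : pm.toMeasure {x | (G0, base x) ∈ A} = ∑' x, pm x * a x := by
      rw [PMF.toMeasure_apply _ MeasurableSet.of_discrete]
      refine tsum_congr fun x => ?_
      have hax : a x = A'.indicator 1 (base x) := rfl
      rw [hax]
      by_cases hx : base x ∈ A'
      · have hx' : x ∈ {x | (G0, base x) ∈ A} := hx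
        rw [Set.indicator_of_mem hx', Set.indicator_of_mem hx]; simp
      · have hx' : x ∉ {x | (G0, base x) ∈ A} := hx
        rw [Set.indicator_of_notMem hx', Set.indicator_of_notMem hx]; simp
    have hR : ∫⁻ x, ∑' v, ENNReal.ofReal (G0.P (base x) v) * A'.indicator 1 v ∂pm.toMeasure =
        ∑' x, (∑' v, ENNReal.ofReal (G0.P (base x) v) * A'.indicator 1 v) * pm x := by
      rw [lintegral_countable']
      refine tsum_congr fun x => ?_
      rw [PMF.toMeasure_apply_singleton _ _ MeasurableSet.of_discrete]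
    rw [hL]
    change _ = ∫⁻ x, ∑' v, ENNReal.ofReal (G0.P (base x) v) * A'.indicator 1 v ∂pm.toMeasure
    rw [hR]
    have h1 : ∀ x, pm x * a x = (fw x * a x) * (∑' x, fw x)⁻¹ := by
      intro x
      unfold pm
      rw [PMF.normalize_apply]; ring
    have h2 : ∀ x, (∑' v, ENNReal.ofReal (G0.P (base x) v) * A'.indicator 1 v) * pm x =
        (kap x * upc x * a (x + 1) + kap x * downc x * a (x - 1)) * (∑' x, fw x)⁻¹ := by
      intro x
      rw [inner_sum A' a hinv]
      unfold pm
      rw [PMF.normalize_apply, ← mul_assoc]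
      congr 1
      unfold fw
      have hd0 : ((upc x : ℝ≥0∞) + (downc x : ℝ≥0∞)) ≠ 0 := by
        have := upc_pos x
        intro h
        have h' : ((upc x + downc x : ℕ) : ℝ≥0∞) = 0 := by push_cast; exact h
        have : upc x + downc x = 0 := by exact_mod_cast h'
        omega
      have hdt : ((upc x : ℝ≥0∞) + (downc x : ℝ≥0∞)) ≠ ∞ := by
        exact_mod_cast ENNReal.natCast_ne_top (upc x + downc x)
      rw [div_eq_mul_inv, mul_comm (kap x), mul_assoc, ← mul_assoc _ _ (kap x),
        ENNReal.inv_mul_cancel hd0 hdt, one_mul]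
      ring
    rw [tsum_congr h1, tsum_congr h2, ENNReal.tsum_mul_right, ENNReal.tsum_mul_right, balance]

/-- **Main theorem.** -/
theorem result : ∃ (Ω V : Type) (_ : MeasurableSpace Ω) (S : StationaryRandomGraph Ω V),
    (∀ ω v w, (S.Γ ω).graph.Adj v w → (S.Γ ω).wt v w = 1) ∧
    (∀ ω v, {w | (S.Γ ω).graph.Adj v w}.encard ≤ 10) ∧
    (∀ ω v, ∀ n : ℕ, 1 ≤ n → ((S.Γ ω).ball v n).encard ≤ ((1536 * n ^ 4 : ℕ) : ℕ∞)) ∧
    S.PolynomialGrowth ∧
    ∀ᵐ ω ∂S.μ, ¬ FiniteDimensional ℝ ((S.Γ ω).H (S.ρ ω) 3) := by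
  refine ⟨ℕ, Vert, inferInstance, S0, ?_, ?_, ?_, ?_, ?_⟩
  · intro ω v w h
    exact wt0_adj h
  · intro ω v
    have h1 : {w | (S0.Γ ω).graph.Adj v w} = (nb v : Set Vert) := by
      ext w
      rw [Finset.mem_coe, mem_nb]; rfl
    rw [h1, Set.encard_coe_eq_coe_finsetCard, card_nb]
    have := upc_le (ht v)
    have := downc_le (ht v)
    have h2 : upc (ht v) + downc (ht v) ≤ 10 := by omega
    exact_mod_cast h2
  · intro ω v n hn
    exact encard_ball_le v n hn
  · refine ⟨1536, 4, fun n hn => ?_⟩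
    have h1 : ∀ ω : ℕ, (((S0.Γ ω).ball (S0.ρ ω) n).encard : ℝ≥0∞) ≤ 1536 * (n : ℝ≥0∞) ^ 4 := by
      intro ω
      have h2 := encard_ball_le (base ω) n hn
      have h3 : ((G0.ball (base ω) n).encard : ℝ≥0∞) ≤ (((1536 * n ^ 4 : ℕ) : ℕ∞) : ℝ≥0∞) :=
        ENat.toENNReal_le.2 h2
      refine h3.trans (le_of_eq ?_)
      simp
    have : IsProbabilityMeasure S0.μ := S0.prob
    calc ∫⁻ ω, (((S0.Γ ω).ball (S0.ρ ω) n).encard : ℝ≥0∞) ∂S0.μ
        ≤ ∫⁻ _ω, 1536 * (n : ℝ≥0∞) ^ 4 ∂S0.μ := lintegral_mono h1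
      _ = 1536 * (n : ℝ≥0∞) ^ 4 := by simp
      _ = ((1536 : ℕ) : ℝ≥0∞) * (n : ℝ≥0∞) ^ 4 := by simp
  · exact Filter.Eventually.of_forall fun ω => not_finiteDimensional _

end Pool.Agent.Results.MP_1af0ac_pr.InfiniteDim
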